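import Mathlib

set_option autoImplicit false

/-!
# Metrizable group topologies on the infinite symmetric group (MP_8d0ff6_al): definitions
-/

namespace Pool.Agent.H533R2.TG

/-- `S_∞`. -/
abbrev G : Type := Equiv.Perm ℕ

/-- The set of moved points. -/
def mv (g : G) : Set ℕ := {x | g x ≠ x}

/-- Products of an even number of transpositions. -/
def EvenF (g : G) : Prop := ∃ l : List G, (∀ s ∈ l, Equiv.Perm.IsSwap s) ∧ Even l.length ∧ g = l.prod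

/-- 3-cycles. -/
def T3 (g : G) : Prop := ∃ a b c : ℕ, a ≠ b ∧ a ≠ c ∧ b ≠ c ∧ g = Equiv.swap a b * Equiv.swap a c

/-- The topology in which the sets `g (Stab(F) ∩ N)`, `F` finite, form a neighbourhood base of `g`. -/
def stdTop (N : Set G) : TopologicalSpace G where
  IsOpen U := ∀ g ∈ U, ∃ F : Finset ℕ, ∀ h ∈ N, (∀ x ∈ F, h x = x) → g * h ∈ U
  isOpen_univ := fun _ _ => ⟨∅, fun _ _ _ => Set.mem_univ _⟩
  isOpen_inter := by
    rintro U V hU hV g ⟨h1, h2⟩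
    obtain ⟨F, hF⟩ := hU g h1
    obtain ⟨F', hF'⟩ := hV g h2
    exact ⟨F ∪ F', fun h hN hh => ⟨hF h hN fun x hx => hh x (Finset.mem_union_left _ hx),
      hF' h hN fun x hx => hh x (Finset.mem_union_right _ hx)⟩⟩
  isOpen_sUnion := by
    rintro S hS g ⟨U, hU, hg⟩
    obtain ⟨F, hF⟩ := hS U hU g hg
    exact ⟨F, fun h hN hh => ⟨U, hU, hF h hN hh⟩⟩

/-- A countable base of neighbourhoods of `1` of a Hausdorff group topology. -/
structure Base (U : ℕ → Set G) : Prop where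
  one : ∀ n, (1 : G) ∈ U n
  anti : ∀ n, U (n + 1) ⊆ U n
  inv : ∀ n, ∀ g ∈ U n, g⁻¹ ∈ U n
  mul : ∀ n, ∀ g ∈ U (n + 1), ∀ h ∈ U (n + 1), g * h ∈ U n
  conj : ∀ n (g : G), ∃ m, ∀ h ∈ U m, g * h * g⁻¹ ∈ U n
  haus : ∀ g, (∀ n, g ∈ U n) → g = 1

/-- `B` is full for `U n`: every permutation of `B` is the restriction of an element of `U n`. -/
def Full (U : ℕ → Set G) (n : ℕ) (B : Set ℕ) : Prop :=
  ∀ σ : G, mv σ ⊆ B → ∃ k ∈ U n, ∀ b ∈ B, k b = σ b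

/-- `Sym(A) ⊆ U n`. -/
def Good (U : ℕ → Set G) (n : ℕ) (A : Set ℕ) : Prop := ∀ u : G, mv u ⊆ A → u ∈ U n

/-- Tails of a sequence. -/
def tail (c : ℕ → ℕ) (n : ℕ) : Set ℕ := {x | ∃ i, n ≤ i ∧ c i = x}

end Pool.Agent.H533R2.TG
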