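import Pool.Agent.H533R2.TG.Defs

set_option autoImplicit false

/-! Stubs (statements only). -/

namespace Pool.Agent.H533R2.TG

open Set

variable {U : ℕ → Set G}

/-- BASE -/
theorem exists_base (τ : TopologicalSpace G) (hg : @IsTopologicalGroup G τ _)
    (h2 : @T2Space G τ) (hf : @FirstCountableTopology G τ) :
    ∃ U : ℕ → Set G, Base U ∧ ∀ V : Set G, V ∈ @nhds G τ 1 ↔ ∃ n, U n ⊆ V := sorry

/-- EQTOP -/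
theorem eq_std (τ : TopologicalSpace G) (hg : @IsTopologicalGroup G τ _)
    (hU : ∀ V : Set G, V ∈ @nhds G τ 1 ↔ ∃ n, U n ⊆ V) (N : Set G)
    (h1 : ∀ n, ∃ F : Finset ℕ, ∀ h ∈ N, (∀ x ∈ F, h x = x) → h ∈ U n)
    (h2 : ∀ F : Finset ℕ, ∃ n, ∀ h ∈ U n, h ∈ N ∧ ∀ x ∈ F, h x = x) : τ = stdTop N := sorry

/-- GLUE1 -/
theorem exists_perm_image (A B : Set ℕ) (hA : A.Infinite) (hB : B.Infinite) (hA' : Aᶜ.Infinite)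
    (hB' : Bᶜ.Infinite) : ∃ c : G, c '' A = B := sorry

/-- GLUE2 -/
theorem glue (A : ℕ → Set ℕ) (c : ℕ → G) (hA : ∀ i j, i ≠ j → Disjoint (A i) (A j))
    (hB : ∀ i j, i ≠ j → Disjoint (c i '' A i) (c j '' A j)) (h1 : (⋃ i, A i)ᶜ.Infinite)
    (h2 : (⋃ i, c i '' A i)ᶜ.Infinite) : ∃ g : G, ∀ i, ∀ a ∈ A i, g a = c i a := sorry

/-- GLUE3 -/
theorem glue_self (c : ℕ → G) (h : ∀ i j, i ≠ j → Disjoint (mv (c i)) (mv (c j))) :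
    ∃ g : G, (∀ i, ∀ a ∈ mv (c i), g a = c i a) ∧ ∀ a, (∀ i, a ∉ mv (c i)) → g a = a := sorry

/-- SPLIT -/
theorem disj_sub (B : ℕ → Set ℕ) (hB : ∀ i, (B i).Infinite) :
    ∃ B' : ℕ → Set ℕ, (∀ i, B' i ⊆ B i ∧ (B' i).Infinite) ∧
      (∀ i j, i ≠ j → Disjoint (B' i) (B' j)) ∧ (⋃ i, B' i)ᶜ.Infinite := sorry

/-- GAU -/
theorem gaughan (hU : Base U) (F : Finset ℕ) : ∃ n, ∀ g ∈ U n, ∀ x ∈ F, g x = x := sorry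

/-- THREE -/
theorem three_small (hU : Base U) (hfin : ∃ m, ∀ g ∈ U m, (mv g).Finite)
    (hnd : ∀ n, ∃ g ∈ U n, g ≠ 1) (n : ℕ) (F : Finset ℕ) :
    ∃ g ∈ U n, T3 g ∧ ∀ x ∈ F, g x = x := sorry

/-- CSEQ -/
theorem conj_seq (hU : Base U) (n : ℕ) (x z : ℕ → G) (hz : ∀ i, z i ∈ U i) (hx : ∀ i, x i ∉ U n)
    (hc : ∀ i, ∃ c : G, c * x i * c⁻¹ = z i) (dx : ∀ i j, i ≠ j → Disjoint (mv (x i)) (mv (x j)))
    (dz : ∀ i j, i ≠ j → Disjoint (mv (z i)) (mv (z j))) : False := sorry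

/-- ALL3 -/
theorem three_all (hU : Base U) (hfin : ∃ m, ∀ g ∈ U m, (mv g).Finite)
    (hnd : ∀ n, ∃ g ∈ U n, g ≠ 1) (n : ℕ) :
    ∃ F : Finset ℕ, ∀ g, T3 g → (∀ x ∈ F, g x = x) → g ∈ U n := sorry

/-- EVENPROD -/
theorem even_prod (g : G) (hg : EvenF g) : ∃ l : List G, (∀ s ∈ l, T3 s) ∧ g = l.prod := sorry

/-- EVENALL -/
theorem even_all (hU : Base U) (hfin : ∃ m, ∀ g ∈ U m, (mv g).Finite)
    (hnd : ∀ n, ∃ g ∈ U n, g ≠ 1) (n : ℕ) :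
    ∃ F : Finset ℕ, ∀ g, EvenF g → (∀ x ∈ F, g x = x) → g ∈ U n := sorry

/-- PARITY -/
theorem parity (hU : Base U) (hfin : ∃ m, ∀ g ∈ U m, (mv g).Finite)
    (he : ∀ n, ∃ F : Finset ℕ, ∀ g, EvenF g → (∀ x ∈ F, g x = x) → g ∈ U n) :
    (∃ n, ∀ g ∈ U n, EvenF g) ∨
      ∀ n, ∃ F : Finset ℕ, ∀ g, (mv g).Finite → (∀ x ∈ F, g x = x) → g ∈ U n := sorry

/-- THIN -/
theorem thin (h : ℕ → G) (hh : ∀ m, (mv (h m)).Infinite) :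
    ∃ B : ℕ → Set ℕ, (∀ m, (B m).Infinite) ∧ (∀ i j, i ≠ j → Disjoint (B i) (B j)) ∧
      ∀ m j, Disjoint (h m '' B m) (B j) := sorry

/-- FULL -/
theorem full_exists (hU : Base U) (hinf : ∀ m, ∃ g ∈ U m, (mv g).Infinite) (n : ℕ) :
    ∃ B : Set ℕ, B.Infinite ∧ Full U n B := sorry

/-- TRANS -/
theorem transfer (hU : Base U) (P : ℕ → Set ℕ → Prop)
    (hmono : ∀ n B B', B' ⊆ B → P n B → P n B')
    (hconj : ∀ (n m : ℕ) (g : G), (∀ h ∈ U m, g * h * g⁻¹ ∈ U n) → ∀ B, P m B → P n (g '' B))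
    (hex : ∀ n, ∃ B : Set ℕ, B.Infinite ∧ P n B) (n : ℕ) (D : Set ℕ) (hD : D.Infinite) :
    ∃ B ⊆ D, B.Infinite ∧ P n B := sorry

/-- ALMOST -/
theorem almost (hU : Base U) (hinf : ∀ m, ∃ g ∈ U m, (mv g).Infinite) :
    ∃ c : ℕ → ℕ, Function.Injective c ∧ ∀ n, Full U n (tail c n) := sorry

/-- AD -/
theorem ad_family : ∃ X : (ℕ → Bool) → Set ℕ, (∀ ξ, (X ξ).Infinite) ∧
    ∀ ξ η, ξ ≠ η → (X ξ ∩ X η).Finite := sorry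

/-- CTB -/
theorem countable_fin : {g : G | (mv g).Finite}.Countable := sorry

/-- INVOL -/
theorem small_inv (hU : Base U) (c : ℕ → ℕ) (hc : Function.Injective c)
    (hF : ∀ n, Full U n (tail c n)) (n : ℕ) :
    ∃ s ∈ U n, mv s ⊆ tail c n ∧ s * s = 1 ∧ (mv s).Infinite ∧ (tail c n \ mv s).Infinite := sorry

/-- TWOINV -/
theorem two_inv (C : Set ℕ) (u : G) (hu : mv u ⊆ C) :
    ∃ a b : G, a * a = 1 ∧ b * b = 1 ∧ mv a ⊆ C ∧ mv b ⊆ C ∧ u = a * b := sorry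

/-- INVTWO -/
theorem inv_two (C : Set ℕ) (hC : C.Infinite) (a : G) (ha : a * a = 1) (haC : mv a ⊆ C) :
    ∃ b d : G, b * b = 1 ∧ d * d = 1 ∧ mv b ⊆ C ∧ mv d ⊆ C ∧ a = b * d ∧ (mv b).Infinite ∧
      (mv d).Infinite ∧ (C \ mv b).Infinite ∧ (C \ mv d).Infinite := sorry

/-- CONJINV -/
theorem conj_inv (C : Set ℕ) (a b : G) (ha : a * a = 1) (hb : b * b = 1) (haC : mv a ⊆ C)
    (hbC : mv b ⊆ C) (h1 : (mv a).Infinite) (h2 : (mv b).Infinite) (h3 : (C \ mv a).Infinite)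
    (h4 : (C \ mv b).Infinite) : ∃ σ : G, mv σ ⊆ C ∧ σ * a * σ⁻¹ = b := sorry

/-- GOOD -/
theorem good_exists (hU : Base U) (hinf : ∀ m, ∃ g ∈ U m, (mv g).Infinite) (n : ℕ) :
    ∃ A : Set ℕ, A.Infinite ∧ Good U n A := sorry

/-- UNION -/
theorem union_gen (P Q : Set ℕ) (hI : (P ∩ Q).Infinite) (u : G) (hu : mv u ⊆ P ∪ Q) :
    ∃ p₁ q₁ p₂ q₂ p₃ : G, mv p₁ ⊆ P ∧ mv q₁ ⊆ Q ∧ mv p₂ ⊆ P ∧ mv q₂ ⊆ Q ∧ mv p₃ ⊆ P ∧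
      u = p₁ * q₁ * p₂ * q₂ * p₃ := sorry

/-- FAM -/
theorem family : ∃ f : (ℕ → Bool) → ℕ → ℕ, (∀ ξ k, {x | f ξ x = k}.Infinite) ∧
    ∀ ξ η, ξ ≠ η → ∀ m, {x | f ξ x ≤ m ∧ f η x ≤ m}.Finite ∧
      {x | m < f ξ x ∧ m < f η x}.Infinite := sorry

/-- FIBERS -/
theorem fiber_perm (f g : ℕ → ℕ) (hf : ∀ k, {x | f x = k}.Infinite)
    (hg : ∀ k, {x | g x = k}.Infinite) : ∃ c : G, ∀ x, g (c x) = f x := sorry

/-- CASE2 -/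
theorem case_two (hU : Base U) (hinf : ∀ m, ∃ g ∈ U m, (mv g).Infinite) (n : ℕ) :
    ∃ F : Finset ℕ, ∀ g : G, (∀ x ∈ F, g x = x) → g ∈ U n := sorry

end Pool.Agent.H533R2.TG
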